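import Pool.Agent.Helper91.KZ.StL

/-! The form attached to a product of cyclic algebras. -/

namespace Pool.Agent.Helper53.KZ

open Pool.Agent.Helper91.KZ TensorProduct

universe u

theorem powers_indep {W K : Type u} [Field W] [DivisionRing K] [Algebra W K] (p : ℕ) (x : K)
    (hd : dg W x = p) (c : Fin p → W) (hc : ∑ l, algebraMap W K (c l) * x ^ (l : ℕ) = 0) :
    ∀ l, c l = 0 := by
  unfold dg at hd
  subst hd
  have h1 : LinearIndependent W fun i : Fin (minpoly W x).natDegree => x ^ (i : ℕ) :=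
    linearIndependent_pow x
  rw [Fintype.linearIndependent_iff] at h1
  apply h1 c
  rw [← hc]
  exact Finset.sum_congr rfl (fun l _ => Algebra.smul_def _ _)

/-- the elements `x` and `x ^ l * y` of a cyclic algebra -/
noncomputable def fam {K : Type u} [DivisionRing K] (p : ℕ) (x y : K) : Option (Fin p) → K
  | none => x
  | some l => x ^ (l : ℕ) * y

theorem fam_indep {W K : Type u} [Field W] [DivisionRing K] [Algebra W K] (p : ℕ) (ω : W)
    (x y : K) (hp : p.Prime) (hω : IsPrimitiveRoot ω p)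
    (hyx : y * x = algebraMap W K ω * (x * y)) (hy : y ≠ 0) (hx : x ≠ 0) (hd : dg W x = p) :
    LinearIndependent W (fam p x y) := by
  rw [Fintype.linearIndependent_iff]
  intro c hc
  rw [Fintype.sum_option] at hc
  have hc2 : algebraMap W K (c none) * x +
      (∑ l : Fin p, algebraMap W K (c (some l)) * x ^ (l : ℕ)) * y = 0 := by
    rw [← hc, Finset.sum_mul, Algebra.smul_def]
    congr 1
    refine Finset.sum_congr rfl (fun l _ => ?_)
    rw [Algebra.smul_def, mul_assoc]
    rfl
  have hfx : Commute (∑ l : Fin p, algebraMap W K (c (some l)) * x ^ (l : ℕ)) x := by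
    refine Commute.sum_left _ _ _ (fun l _ => ?_)
    exact (Algebra.commute_algebraMap_left (c (some l)) x).mul_left ((Commute.refl x).pow_left _)
  generalize hg : (∑ l : Fin p, algebraMap W K (c (some l)) * x ^ (l : ℕ)) = g at hc2 hfx
  by_cases hg0 : g = 0
  · rw [hg0] at hg hc2
    rw [zero_mul, add_zero] at hc2
    have h1 := powers_indep p x hd (fun l => c (some l)) hg
    have h2 : algebraMap W K (c none) = 0 := by
      rcases mul_eq_zero.1 hc2 with h | h
      · exact h
      · exact absurd h hx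
    have h3 : c none = 0 := (map_eq_zero (algebraMap W K)).1 h2
    intro i
    rcases i with _ | l
    · exact h3
    · exact h1 l
  · exfalso
    have h1 : y = g⁻¹ * (-(algebraMap W K (c none) * x)) := by
      have h2 : g * y = -(algebraMap W K (c none) * x) := by
        rw [eq_neg_iff_add_eq_zero, add_comm]
        exact hc2
      rw [← h2, ← mul_assoc, inv_mul_cancel₀ hg0, one_mul]
    have h3 : Commute y x := by
      rw [h1]
      refine (hfx.inv_left₀).mul_left ?_
      exact ((Algebra.commute_algebraMap_left (c none) x).mul_left (Commute.refl x)).neg_left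
    have h4 : (algebraMap W K (ω - 1)) * (x * y) = 0 := by
      rw [map_sub, map_one, sub_mul, one_mul, ← hyx, h3.eq, sub_self]
    rcases mul_eq_zero.1 h4 with h | h
    · have h5 : ω - 1 = 0 := (map_eq_zero (algebraMap W K)).1 h
      exact hω.ne_one hp.one_lt (sub_eq_zero.1 h5)
    · exact (mul_ne_zero hx hy) h

theorem dual_family {W V ι : Type*} [Field W] [AddCommGroup V] [Module W V] (v : ι → V)
    (hv : LinearIndependent W v) (i : ι) :
    ∃ g : V →ₗ[W] W, g (v i) = 1 ∧ ∀ j, j ≠ i → g (v j) = 0 := by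
  classical
  let B := Module.Basis.span hv
  obtain ⟨g, hg⟩ := LinearMap.exists_extend (B.coord i)
  have h1 : ∀ j, g (v j) = B.coord i (B j) := by
    intro j
    have h2 := LinearMap.congr_fun hg (B j)
    rw [← h2]
    show g (v j) = g ((B j : _) : V)
    rw [Module.Basis.span_apply]
  refine ⟨g, ?_, ?_⟩
  · rw [h1, Module.Basis.coord_apply, Module.Basis.repr_self, Finsupp.single_eq_same]
  · intro j hj
    rw [h1, Module.Basis.coord_apply, Module.Basis.repr_self, Finsupp.single_eq_of_ne (Ne.symm hj)]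

theorem tensor_indep {W V U ι : Type*} [Field W] [AddCommGroup V] [Module W V] [AddCommGroup U]
    [Module W U] [Fintype ι] (v : ι → V) (hv : LinearIndependent W v) (a : ι → U)
    (h : ∑ i, (a i ⊗ₜ[W] v i : U ⊗[W] V) = 0) : ∀ i, a i = 0 := by
  intro i
  obtain ⟨g, hg1, hg2⟩ := dual_family v hv i
  have h1 : (TensorProduct.rid W U) ((LinearMap.lTensor U g) (∑ j, (a j ⊗ₜ[W] v j : U ⊗[W] V))) =
      a i := by
    rw [map_sum, map_sum, Finset.sum_eq_single i]
    · rw [LinearMap.lTensor_tmul, TensorProduct.rid_tmul, hg1, one_smul]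
    · intro j _ hj
      rw [LinearMap.lTensor_tmul, TensorProduct.rid_tmul, hg2 j hj, zero_smul]
    · intro hi
      exact absurd (Finset.mem_univ i) hi
  rw [← h1, h, map_zero, map_zero]

theorem st_MT1 (hKUM : ST_KUM.{u}) (hQBN : ST_QBN.{u}) (hNRF : ST_NRF.{u}) : ST_MT1.{u} := by
  intro p W _ _ ω hp hω j
  induction j with
  | zero =>
    intro K _ _ _
    refine ⟨Unit, inferInstance, MvPolynomial.X () ^ p,
      (Algebra.linearMap W K) ∘ₗ (LinearMap.proj ()), ?_, ?_, ?_, ?_⟩
    · simp
    · intro c d hcd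
      funext i
      have h1 : algebraMap W K (c ()) = algebraMap W K (d ()) := hcd
      exact (algebraMap W K).injective h1
    · exact MvPolynomial.isHomogeneous_X_pow () p
    · intro c
      show (algebraMap W K (c ())) ^ p = _
      rw [map_pow, MvPolynomial.eval_X, map_pow]
  | succ j ih =>
    intro K _ _ hK
    obtain ⟨K₁, K₂, _, _, _, _, hK₁, hK₂, ⟨T, _, _, hT, hTp, hTK⟩, ⟨e⟩⟩ := hK
    obtain ⟨ι₁, _, φ₁, L₁, hcard, hL₁, hφ₁, hLφ⟩ := ih K₁ hK₁
    have := hT
    obtain ⟨x, y, a, b, hxa, hyb, hyx, hy, hx, hd⟩ := hKUM W K₂ T p ω hp hω hK₂ hTp hTK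
    obtain ⟨φN, hφN, hN⟩ := hNRF W K₂ p ω a b x y hp hω hxa hyb hyx hy hx hd
    let L₀ : (Fin p ⊕ ι₁ → W) →ₗ[W] (K₁ ⊗[W] K₂) :=
      (((TensorProduct.mk W K₁ K₂).flip x) ∘ₗ L₁) ∘ₗ (LinearMap.funLeft W W Sum.inr) +
      ∑ l : Fin p, (LinearMap.proj (Sum.inl l) : (Fin p ⊕ ι₁ → W) →ₗ[W] W).smulRight
        ((1 : K₁) ⊗ₜ[W] (x ^ (l : ℕ) * y))
    have hL₀ : ∀ c, L₀ c = L₁ (fun i => c (Sum.inr i)) ⊗ₜ[W] x +
        ∑ l : Fin p, c (Sum.inl l) • ((1 : K₁) ⊗ₜ[W] (x ^ (l : ℕ) * y)) := by
      intro c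
      simp only [L₀, LinearMap.add_apply, LinearMap.sum_apply, LinearMap.smulRight_apply,
        LinearMap.proj_apply, LinearMap.comp_apply, LinearMap.flip_apply, TensorProduct.mk_apply]
      rfl
    have hL₁' : ∀ c : Fin p ⊕ ι₁ → W,
        ∑ l : Fin p, c (Sum.inl l) • ((1 : K₁) ⊗ₜ[W] (x ^ (l : ℕ) * y)) =
        (1 : K₁) ⊗ₜ[W] ((∑ l, algebraMap W K₂ (c (Sum.inl l)) * x ^ (l : ℕ)) * y) := by
      intro c
      rw [Finset.sum_mul, TensorProduct.tmul_sum]
      refine Finset.sum_congr rfl (fun l _ => ?_)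
      rw [← TensorProduct.tmul_smul, Algebra.smul_def, mul_assoc]
    refine ⟨Fin p ⊕ ι₁, inferInstance, MvPolynomial.C a * MvPolynomial.rename Sum.inr φ₁ +
      MvPolynomial.rename Sum.inl φN, e.toLinearMap ∘ₗ L₀, ?_, ?_, ?_, ?_⟩
    · rw [Fintype.card_sum, Fintype.card_fin, hcard]
      ring
    · rw [← LinearMap.ker_eq_bot, LinearMap.ker_eq_bot']
      intro c hc
      have h0 : L₀ c = 0 := by
        have h1 : e (L₀ c) = 0 := hc
        exact (map_eq_zero_iff e e.injective).1 h1
      rw [hL₀] at h0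
      let A : Option (Fin p) → K₁ := fun i => match i with
        | none => L₁ (fun i => c (Sum.inr i))
        | some l => algebraMap W K₁ (c (Sum.inl l))
      have h2 : ∑ i : Option (Fin p), (A i ⊗ₜ[W] fam p x y i : K₁ ⊗[W] K₂) = 0 := by
        rw [Fintype.sum_option]
        refine Eq.trans ?_ h0
        refine congrArg₂ (· + ·) rfl (Finset.sum_congr rfl (fun l _ => ?_))
        show (algebraMap W K₁ (c (Sum.inl l))) ⊗ₜ[W] (x ^ (l : ℕ) * y) = _
        rw [TensorProduct.smul_tmul', Algebra.smul_def, mul_one]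
      have h3 := tensor_indep (fam p x y) (fam_indep p ω x y hp hω hyx hy hx hd) A h2
      have h4 : L₁ (fun i => c (Sum.inr i)) = 0 := h3 none
      have h5 : (fun i => c (Sum.inr i)) = 0 := by
        apply hL₁
        rw [h4, map_zero]
      funext i
      rcases i with l | i
      · have h6 : algebraMap W K₁ (c (Sum.inl l)) = 0 := h3 (some l)
        exact (map_eq_zero (algebraMap W K₁)).1 h6
      · exact congrFun h5 i
    · refine MvPolynomial.IsHomogeneous.add ?_ ?_
      · exact (hφ₁.rename_isHomogeneous).C_mul a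
      · exact hφN.rename_isHomogeneous
    · intro c
      show (e (L₀ c)) ^ p = _
      rw [hL₀, hL₁', map_add]
      generalize hf : (∑ l, algebraMap W K₂ (c (Sum.inl l)) * x ^ (l : ℕ)) = f
      have hfx : Commute f x := by
        rw [← hf]
        refine Commute.sum_left _ _ _ (fun l _ => ?_)
        exact (Algebra.commute_algebraMap_left (c (Sum.inl l)) x).mul_left ((Commute.refl x).pow_left _)
      have h1 : e ((1 : K₁) ⊗ₜ[W] (f * y)) * e (L₁ (fun i => c (Sum.inr i)) ⊗ₜ[W] x) =
          algebraMap W K ω * (e (L₁ (fun i => c (Sum.inr i)) ⊗ₜ[W] x) *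
            e ((1 : K₁) ⊗ₜ[W] (f * y))) := by
        rw [← map_mul, ← map_mul, Algebra.TensorProduct.tmul_mul_tmul,
          Algebra.TensorProduct.tmul_mul_tmul, one_mul, mul_one, ← Algebra.smul_def, ← map_smul,
          ← TensorProduct.tmul_smul]
        congr 2
        rw [mul_assoc, hyx, Algebra.smul_def, ← mul_assoc, ← mul_assoc, ← mul_assoc,
          (Algebra.commutes ω f).symm, mul_assoc (algebraMap W K₂ ω) f x, hfx.eq]
        simp only [mul_assoc]
      rw [hQBN W K p ω _ _ hp hω h1, ← map_pow, ← map_pow, Algebra.TensorProduct.tmul_pow,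
        Algebra.TensorProduct.tmul_pow, one_pow, hLφ, hxa]
      have h2 : (f * y) ^ p = algebraMap W K₂ (MvPolynomial.eval (fun l => c (Sum.inl l)) φN) := by
        rw [← hf]
        exact hN (fun l => c (Sum.inl l))
      rw [h2]
      have h3 : ∀ r s : W, (algebraMap W K₁ r) ⊗ₜ[W] (algebraMap W K₂ s) =
          algebraMap W (K₁ ⊗[W] K₂) (r * s) := by
        intro r s
        rw [Algebra.TensorProduct.algebraMap_apply, Algebra.algebraMap_eq_smul_one s,
          TensorProduct.tmul_smul, TensorProduct.smul_tmul', Algebra.smul_def, ← map_mul,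
          mul_comm s r]
      have h4 : (1 : K₁) ⊗ₜ[W] (algebraMap W K₂ (MvPolynomial.eval (fun l => c (Sum.inl l)) φN)) =
          algebraMap W (K₁ ⊗[W] K₂) (MvPolynomial.eval (fun l => c (Sum.inl l)) φN) := by
        have := h3 1 (MvPolynomial.eval (fun l => c (Sum.inl l)) φN)
        rw [map_one, one_mul] at this
        exact this
      rw [h3, h4, AlgEquiv.commutes, AlgEquiv.commutes, ← map_add]
      congr 1
      rw [map_add, map_mul, MvPolynomial.eval_C, MvPolynomial.eval_rename,
        MvPolynomial.eval_rename, mul_comm a]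
      rfl

end Pool.Agent.Helper53.KZ
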