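import Pool.Agent.Helper91.KZ.StL

/-! Systems of forms over algebraically closed fields. -/

namespace Pool.Agent.Helper53.KZ

open Pool.Agent.Helper91.KZ

universe u

/-- the evaluation which sets the first `l` variables to `0` -/
noncomputable def ev (k : Type u) [Field k] (n l : ℕ) :
    MvPolynomial (Fin n) k →ₐ[k] MvPolynomial (Fin n) k :=
  MvPolynomial.aeval (fun i => if (i : ℕ) < l then 0 else MvPolynomial.X i)

/-- the ideal generated by the first `l` variables -/
noncomputable def Pr (k : Type u) [Field k] (n l : ℕ) : Ideal (MvPolynomial (Fin n) k) :=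
  RingHom.ker (ev k n l)

theorem Pr_prime (k : Type u) [Field k] (n l : ℕ) : (Pr k n l).IsPrime :=
  RingHom.ker_isPrime _

theorem mem_Pr {k : Type u} [Field k] {n l : ℕ} {p : MvPolynomial (Fin n) k} :
    p ∈ Pr k n l ↔ ev k n l p = 0 := RingHom.mem_ker

theorem ev_comp (k : Type u) [Field k] (n l : ℕ) :
    (ev k n (l + 1)).comp (ev k n l) = ev k n (l + 1) := by
  apply MvPolynomial.algHom_ext
  intro i
  simp only [AlgHom.comp_apply, ev, MvPolynomial.aeval_X]
  by_cases hi : (i : ℕ) < l
  · rw [if_pos hi, if_pos (by omega), map_zero]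
  · rw [if_neg hi, MvPolynomial.aeval_X]

theorem Pr_lt (k : Type u) [Field k] (n l : ℕ) (hl : l < n) : Pr k n l < Pr k n (l + 1) := by
  refine lt_of_le_of_ne ?_ ?_
  · intro p hp
    rw [mem_Pr] at hp ⊢
    have h1 : (ev k n (l + 1)) ((ev k n l) p) = ev k n (l + 1) p :=
      DFunLike.congr_fun (ev_comp k n l) p
    rw [← h1, hp, map_zero]
  · intro h
    have h1 : (MvPolynomial.X ⟨l, hl⟩ : MvPolynomial (Fin n) k) ∈ Pr k n (l + 1) := by
      rw [mem_Pr]
      simp only [ev, MvPolynomial.aeval_X]
      rw [if_pos (by simp)]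
    rw [← h, mem_Pr] at h1
    simp only [ev, MvPolynomial.aeval_X] at h1
    rw [if_neg (by simp)] at h1
    exact MvPolynomial.X_ne_zero _ h1

theorem Pr_height (k : Type u) [Field k] (n : ℕ) : ∀ l ≤ n, (l : ℕ∞) ≤ (Pr k n l).height := by
  intro l
  induction l with
  | zero => intro _; simp
  | succ l ih =>
    intro hl
    have := Pr_prime k n l
    have := Pr_prime k n (l + 1)
    have h1 := Ideal.height_add_one_le_of_lt_of_isPrime (Pr_lt k n l (by omega))
    refine le_trans ?_ h1
    push_cast
    exact add_le_add (ih (by omega)) le_rfl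

theorem Pr_le (k : Type u) [Field k] (n : ℕ) :
    Pr k n n ≤ MvPolynomial.vanishingIdeal k {(0 : Fin n → k)} := by
  intro p hp
  rw [mem_Pr] at hp
  rw [MvPolynomial.mem_vanishingIdeal_singleton_iff]
  have h1 : (MvPolynomial.aeval (0 : Fin n → k)).comp (ev k n n) =
      MvPolynomial.aeval (0 : Fin n → k) := by
    apply MvPolynomial.algHom_ext
    intro i
    simp only [AlgHom.comp_apply, ev, MvPolynomial.aeval_X]
    rw [if_pos i.isLt, map_zero, Pi.zero_apply]
  have h2 : (MvPolynomial.aeval (0 : Fin n → k)) ((ev k n n) p) =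
      MvPolynomial.aeval (0 : Fin n → k) p := DFunLike.congr_fun h1 p
  rw [← h2, hp, map_zero]

theorem st_TL0 : ST_TL0.{u} := by
  intro k _ _ r n d hd hr f hf
  rw [pow_zero, mul_one] at hr
  by_contra hcon
  push Not at hcon
  classical
  let s : Finset (MvPolynomial (Fin n) k) := Finset.univ.image f
  let I : Ideal (MvPolynomial (Fin n) k) := Ideal.span (s : Set (MvPolynomial (Fin n) k))
  have h0 : ∀ j, MvPolynomial.eval (0 : Fin n → k) (f j) = 0 := by
    intro j
    rw [MvPolynomial.eval_zero]
    apply (hf j).coeff_eq_zero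
    intro h
    rw [map_zero] at h
    exact hd.ne h
  have hz : MvPolynomial.zeroLocus k I = {(0 : Fin n → k)} := by
    rw [MvPolynomial.zeroLocus_span]
    ext v
    simp only [Set.mem_ofPred_eq, Set.mem_singleton_iff]
    constructor
    · intro h
      by_contra hv
      obtain ⟨j, hj⟩ := hcon v hv
      apply hj
      have h1 := h (f j) (by simp [s])
      rwa [MvPolynomial.aeval_eq_eval] at h1
    · rintro rfl p hp
      simp only [s, Finset.coe_image, Finset.coe_univ, Set.image_univ, Set.mem_range] at hp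
      obtain ⟨j, rfl⟩ := hp
      rw [MvPolynomial.aeval_eq_eval]
      exact h0 j
  have hrad : I.radical = MvPolynomial.vanishingIdeal k {(0 : Fin n → k)} := by
    rw [← MvPolynomial.vanishingIdeal_zeroLocus_eq_radical (K := k), hz]
  have hprime : (MvPolynomial.vanishingIdeal k {(0 : Fin n → k)}).IsPrime := inferInstance
  have hmin : MvPolynomial.vanishingIdeal k {(0 : Fin n → k)} ∈ I.minimalPrimes := by
    refine ⟨⟨hprime, ?_⟩, ?_⟩
    · rw [← hrad]
      exact Ideal.le_radical
    · intro q hq _
      rw [← hrad]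
      exact (Ideal.IsPrime.radical_le_iff hq.1).2 hq.2
  have h1 := Ideal.height_le_card_of_mem_minimalPrimes_span_finset hmin
  have h2 : s.card ≤ r := by
    have := Finset.card_image_le (s := (Finset.univ : Finset (Fin r))) (f := f)
    simpa using this
  have h3 : (n : ℕ∞) ≤ (r : ℕ∞) :=
    (Pr_height k n n le_rfl).trans ((Ideal.height_mono (Pr_le k n)).trans
      (h1.trans (by exact_mod_cast h2)))
  have h4 : n ≤ r := by exact_mod_cast h3
  omega

end Pool.Agent.Helper53.KZ
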