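import Pool.Agent.Helper91.KZ.StL

/-! Systems of forms over finite extensions. -/

namespace Pool.Agent.Helper53.KZ

open Pool.Agent.Helper91.KZ

universe u

theorem form_coord {K L : Type u} [Field K] [Field L] [Algebra K L] (n s d : ℕ) (b : Fin s → L)
    (f : MvPolynomial (Fin n) L) (hf : f.IsHomogeneous d) (μ : L →ₗ[K] K) :
    ∃ g : MvPolynomial (Fin n × Fin s) K, g.IsHomogeneous d ∧ ∀ v : Fin n × Fin s → K,
      μ (MvPolynomial.eval (fun i => ∑ a, b a * algebraMap K L (v (i, a))) f) =
        MvPolynomial.eval v g := by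
  let h : Fin n → MvPolynomial (Fin n × Fin s) L := fun i =>
    ∑ a, MvPolynomial.C (b a) * MvPolynomial.X (i, a)
  have hh : ∀ i, (h i).IsHomogeneous 1 := by
    intro i
    refine MvPolynomial.IsHomogeneous.sum _ _ _ (fun a _ => ?_)
    exact (MvPolynomial.isHomogeneous_X L (i, a)).C_mul (b a)
  let F : MvPolynomial (Fin n × Fin s) L := MvPolynomial.aeval h f
  have hF : F.IsHomogeneous d := by
    have := hf.aeval h hh
    rwa [one_mul] at this
  refine ⟨∑ m ∈ F.support, MvPolynomial.monomial m (μ (F.coeff m)), ?_, ?_⟩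
  · refine MvPolynomial.IsHomogeneous.sum _ _ _ (fun m hm => ?_)
    apply MvPolynomial.isHomogeneous_monomial
    have h1 := hF (MvPolynomial.mem_support_iff.1 hm)
    rw [← h1, Finsupp.degree_eq_weight_one]
    rfl
  · intro v
    have h1 : MvPolynomial.eval (fun i => ∑ a, b a * algebraMap K L (v (i, a))) f =
        MvPolynomial.eval (fun t => algebraMap K L (v t)) F := by
      have h2 : MvPolynomial.aeval (fun t => algebraMap K L (v t)) (MvPolynomial.bind₁ h f) =
          MvPolynomial.aeval (fun i => MvPolynomial.aeval (fun t => algebraMap K L (v t)) (h i)) f :=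
        MvPolynomial.aeval_bind₁ _ _ _
      have h3 : (fun i => MvPolynomial.aeval (fun t => algebraMap K L (v t)) (h i)) =
          fun i => ∑ a, b a * algebraMap K L (v (i, a)) := by
        funext i
        simp [h]
      rw [h3] at h2
      exact h2.symm
    rw [h1, MvPolynomial.eval_eq, map_sum, map_sum]
    refine Finset.sum_congr rfl (fun m _ => ?_)
    have h4 : ∏ i ∈ m.support, (algebraMap K L (v i)) ^ m i =
        algebraMap K L (∏ i ∈ m.support, (v i) ^ m i) := by
      rw [map_prod]
      exact Finset.prod_congr rfl (fun i _ => (map_pow _ _ _).symm)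
    rw [h4, mul_comm, ← Algebra.smul_def, map_smul, MvPolynomial.eval_monomial, smul_eq_mul,
      mul_comm]
    rfl

theorem st_TL1 : ST_TL1.{u} := by
  intro K L _ _ _ _ i hK r n d hd hr f hf
  classical
  let s := Module.finrank K L
  have hs : 0 < s := Module.finrank_pos
  let b : Module.Basis (Fin s) K L := Module.finBasis K L
  have h1 : ∀ (j : Fin r) (a : Fin s), ∃ g : MvPolynomial (Fin n × Fin s) K, g.IsHomogeneous d ∧
      ∀ v : Fin n × Fin s → K,
      b.coord a (MvPolynomial.eval (fun i => ∑ a, b a * algebraMap K L (v (i, a))) (f j)) =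
        MvPolynomial.eval v g :=
    fun j a => form_coord n s d b (f j) (hf j) (b.coord a)
  choose g hg hgv using h1
  let e₁ : Fin r × Fin s ≃ Fin (r * s) := finProdFinEquiv
  let e₂ : Fin n × Fin s ≃ Fin (n * s) := finProdFinEquiv
  obtain ⟨w, hw0, hw⟩ := hK (r * s) (n * s) d hd (by
    calc r * s * d ^ i = (r * d ^ i) * s := by ring
      _ < n * s := Nat.mul_lt_mul_of_pos_right hr hs)
    (fun t => MvPolynomial.rename e₂ (g (e₁.symm t).1 (e₁.symm t).2))
    (fun t => (hg _ _).rename_isHomogeneous)
  let v : Fin n × Fin s → K := fun t => w (e₂ t)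
  have hv : ∀ j a, MvPolynomial.eval v (g j a) = 0 := by
    intro j a
    have h2 := hw (e₁ (j, a))
    rw [MvPolynomial.eval_rename, Equiv.symm_apply_apply] at h2
    exact h2
  refine ⟨fun i => ∑ a, b a * algebraMap K L (v (i, a)), ?_, ?_⟩
  · intro h0
    apply hw0
    have h2 : ∀ i a, v (i, a) = 0 := by
      intro i
      have h3 : ∑ a, v (i, a) • b a = 0 := by
        have h4 : ∑ a, b a * algebraMap K L (v (i, a)) = 0 := congrFun h0 i
        rw [← h4]
        refine Finset.sum_congr rfl (fun a _ => ?_)
        rw [Algebra.smul_def, mul_comm]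
      exact Fintype.linearIndependent_iff.1 b.linearIndependent _ h3
    funext t
    have h3 := h2 (e₂.symm t).1 (e₂.symm t).2
    have h4 : v ((e₂.symm t).1, (e₂.symm t).2) = w t := by
      show w (e₂ ((e₂.symm t).1, (e₂.symm t).2)) = w t
      rw [Prod.mk.eta, Equiv.apply_symm_apply]
    rw [← h4, h3]
    rfl
  · intro j
    apply b.ext_elem
    intro a
    have h2 := hgv j a v
    rw [hv j a] at h2
    rw [map_zero, Finsupp.zero_apply]
    exact h2

end Pool.Agent.Helper53.KZ
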